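import Pool.Agent.N936.TC.Stm

/-!
# The suspension is indecomposable (`S_IND`)

A clopen set `D` which is cut only inside an open box outside `A` gives a continuous real function on
the suspension with values `0` and `1` on `A`; it takes both values on `A`.
-/

set_option autoImplicit false

namespace Pool.Agent.N592.TC

open Set Topology
open Pool.Agent.N936.TC

theorem exists_ab (s : I) (J : Set I) (hJ : J ∈ 𝓝 s) :
    ∃ a b : ℝ, 0 < a ∧ a < b ∧ b < 1 ∧ ∀ t : I, a < t → (t : ℝ) < b → t ∈ J := by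
  obtain ⟨ε, hε, hb⟩ := Metric.mem_nhds_iff.1 hJ
  have hs0 : (0 : ℝ) ≤ s := s.2.1
  have hs1 : (s : ℝ) ≤ 1 := s.2.2
  have hm1 : min ε (1 / 4) ≤ ε := min_le_left _ _
  have hm2 : min ε (1 / 4) ≤ 1 / 4 := min_le_right _ _
  have hm3 : 0 < min ε (1 / 4) := lt_min hε (by norm_num)
  rcases le_or_gt (s : ℝ) (1 / 2) with h | h
  · refine ⟨s + min ε (1 / 4) / 4, s + min ε (1 / 4) / 2, by linarith, by linarith, by linarith, ?_⟩
    intro t h1 h2
    apply hb
    rw [Metric.mem_ball, Subtype.dist_eq, Real.dist_eq, abs_lt]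
    constructor <;> linarith
  · refine ⟨s - min ε (1 / 4) / 2, s - min ε (1 / 4) / 4, by linarith, by linarith, by linarith, ?_⟩
    intro t h1 h2
    apply hb
    rw [Metric.mem_ball, Subtype.dist_eq, Real.dist_eq, abs_lt]
    constructor <;> linarith

open Classical in
theorem t_ind : S_IND := by
  intro σ X _ _ Φ hM hC A B hA hB hAB
  by_contra hcon
  push Not at hcon
  obtain ⟨hA1, hB1⟩ := hcon
  have hAc : IsClosed A := hA.1.isClosed
  have hBc : IsClosed B := hB.1.isClosed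
  obtain ⟨x1, hx1⟩ : ∃ x, x ∉ A := by
    by_contra h
    push Not at h
    exact hA1 (eq_univ_of_forall h)
  obtain ⟨x2, hx2⟩ : ∃ x, x ∉ B := by
    by_contra h
    push Not at h
    exact hB1 (eq_univ_of_forall h)
  have hBA : ∀ x, x ∉ B → x ∈ A := by
    intro x hx
    have : x ∈ A ∪ B := by rw [hAB]; trivial
    exact this.resolve_right hx
  obtain ⟨⟨q1, i1, s1⟩, rfl⟩ := hM.surj x1
  obtain ⟨⟨q2, i2, s2⟩, rfl⟩ := hM.surj x2
  -- the box outside A
  have hU1 : IsOpen (Φ ⁻¹' Aᶜ) := hAc.isOpen_compl.preimage hM.cont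
  have hmem1 : Φ ⁻¹' Aᶜ ∈ 𝓝 (q1, i1, s1) := hU1.mem_nhds hx1
  rw [nhds_prod_eq, nhds_prod_eq] at hmem1
  obtain ⟨V1, hV1, W1, hW1, hVW⟩ := Filter.mem_prod_iff.1 hmem1
  obtain ⟨T1, hT1, J, hJ, hTJ⟩ := Filter.mem_prod_iff.1 hW1
  obtain ⟨C1, hC1V, hC1o, hC1q⟩ := mem_nhds_iff.1 hV1
  obtain ⟨a, b, ha, hab, hb, hJab⟩ := exists_ab s1 J hJ
  have hbox : ∀ (q : Q) (s : I), q ∈ C1 → a < s → (s : ℝ) < b → Φ (q, i1, s) ∉ A := by
    intro q s hq h1 h2
    have h3 : ((q, i1, s) : Q × Bool × I) ∈ V1 ×ˢ W1 :=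
      ⟨hC1V hq, hTJ ⟨mem_of_mem_nhds hT1, hJab s h1 h2⟩⟩
    exact hVW h3
  -- the slice outside B
  have hC2o : IsOpen {q : Q | Φ (q, i2, s2) ∉ B} := by
    have : Continuous fun q : Q => Φ (q, i2, s2) := hM.cont.comp (by fun_prop)
    exact hBc.isOpen_compl.preimage this
  obtain ⟨D, hD, hcut, ⟨u, hu2, huD, huS⟩, ⟨v, hv2, hvD, hvS⟩⟩ :=
    hC i1 C1 {q : Q | Φ (q, i2, s2) ∉ B} hC1o ⟨q1, hC1q⟩ hC2o ⟨q2, hx2⟩
  -- the function
  set χ : Q → ℝ := D.indicator (fun _ => 1) with hχ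
  have hχc : Continuous χ := by
    refine Continuous.indicator ?_ continuous_const
    intro x hx
    rw [hD.frontier_eq] at hx
    exact absurd hx (notMem_empty _)
  have hχ1 : ∀ q, q ∈ D → χ q = 1 := fun q h => by simp [hχ, h]
  have hχ0 : ∀ q, q ∉ D → χ q = 0 := fun q h => by simp [hχ, h]
  set τ : ℝ → ℝ := fun s => min 1 (max 0 ((s - a) / (b - a))) with hτ
  have hτc : Continuous τ := by
    rw [hτ]
    fun_prop
  have hba : 0 < b - a := by linarith
  have hτ0 : ∀ s : ℝ, s ≤ a → τ s = 0 := by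
    intro s h
    have : (s - a) / (b - a) ≤ 0 := div_nonpos_of_nonpos_of_nonneg (by linarith) hba.le
    simp only [hτ]
    rw [max_eq_left this]
    norm_num
  have hτ1 : ∀ s : ℝ, b ≤ s → τ s = 1 := by
    intro s h
    have : 1 ≤ (s - a) / (b - a) := by
      rw [le_div_iff₀ hba]
      linarith
    simp only [hτ]
    rw [max_eq_right (by linarith), min_eq_left this]
  set e : Bool → ℝ := fun i => if i = true then 1 else 0 with he
  have hec : Continuous e := continuous_of_discreteTopology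
  set f : Q × Bool × I → ℝ := fun p => (1 - τ (p.2.2 : ℝ)) * χ p.1 +
    τ (p.2.2 : ℝ) * (e p.2.1 * χ (σ true p.1) + (1 - e p.2.1) * χ (σ false p.1)) with hf
  have hfc : Continuous f := by
    have h1 : Continuous fun p : Q × Bool × I => τ (p.2.2 : ℝ) := hτc.comp (by fun_prop)
    have h2 : Continuous fun p : Q × Bool × I => χ p.1 := hχc.comp (by fun_prop)
    have h3 : Continuous fun p : Q × Bool × I => χ (σ true p.1) :=
      hχc.comp ((σ true).continuous.comp (by fun_prop))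
    have h4 : Continuous fun p : Q × Bool × I => χ (σ false p.1) :=
      hχc.comp ((σ false).continuous.comp (by fun_prop))
    have h5 : Continuous fun p : Q × Bool × I => e p.2.1 := hec.comp (by fun_prop)
    exact ((continuous_const.sub h1).mul h2).add
      (h1.mul ((h5.mul h3).add ((continuous_const.sub h5).mul h4)))
  have hfv : ∀ q i s, f (q, i, s) = (1 - τ (s : ℝ)) * χ q + τ (s : ℝ) * χ (σ i q) := by
    intro q i s
    cases i <;> simp [hf, he]
  have hf0 : ∀ q i, f (q, i, 0) = χ q := by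
    intro q i
    rw [hfv, hτ0 _ (by simpa using ha.le)]
    ring
  have hf1 : ∀ q i, f (q, i, 1) = χ (σ i q) := by
    intro q i
    rw [hfv, hτ1 _ (by simpa using hb.le)]
    ring
  obtain ⟨g, hgc, hg⟩ := hM.fact f hfc (fun q i j => by rw [hf0, hf0])
    (fun q i j => by rw [hf1, hf0])
  -- values on A
  have hval : ∀ x ∈ A, g x = 0 ∨ g x = 1 := by
    intro x hx
    obtain ⟨⟨q, i, s⟩, rfl⟩ := hM.surj x
    rw [hg, hfv]
    have h01 : ∀ r, χ r = 0 ∨ χ r = 1 := fun r => by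
      by_cases hr : r ∈ D
      · exact Or.inr (hχ1 r hr)
      · exact Or.inl (hχ0 r hr)
    rcases hcut i q with h | ⟨rfl, hq⟩
    · have : χ (σ i q) = χ q := by
        by_cases hr : q ∈ D
        · rw [hχ1 _ hr, hχ1 _ (h.1 hr)]
        · rw [hχ0 _ hr, hχ0 _ (fun h' => hr (h.2 h'))]
      rw [this]
      have e1 : (1 - τ (s : ℝ)) * χ q + τ (s : ℝ) * χ q = χ q := by ring
      rw [e1]
      exact h01 q
    · rcases le_or_gt (s : ℝ) a with h1 | h1
      · rw [hτ0 _ h1]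
        have e1 : (1 - (0 : ℝ)) * χ q + 0 * χ (σ i q) = χ q := by ring
        rw [e1]
        exact h01 q
      · rcases le_or_gt b (s : ℝ) with h2 | h2
        · rw [hτ1 _ h2]
          have e1 : (1 - (1 : ℝ)) * χ q + 1 * χ (σ i q) = χ (σ i q) := by ring
          rw [e1]
          exact h01 _
        · exact absurd hx (hbox q s hq h1 h2)
  have hu : g (Φ (u, i2, s2)) = 1 := by
    rw [hg, hfv, hχ1 _ huD, hχ1 _ (huS i2)]
    ring
  have hv : g (Φ (v, i2, s2)) = 0 := by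
    rw [hg, hfv, hχ0 _ hvD, hχ0 _ (hvS i2)]
    ring
  have hpre : IsPreconnected (g '' A) := hA.2.isPreconnected.image g hgc.continuousOn
  have hoc := hpre.ordConnected
  have h0 : (0 : ℝ) ∈ g '' A := ⟨_, hBA _ hv2, hv⟩
  have h1 : (1 : ℝ) ∈ g '' A := ⟨_, hBA _ hu2, hu⟩
  have h2 : (1 / 2 : ℝ) ∈ g '' A := hoc.out h0 h1 ⟨by norm_num, by norm_num⟩
  obtain ⟨x, hx, hgx⟩ := h2
  rcases hval x hx with h | h <;> rw [hgx] at h <;> norm_num at h

end Pool.Agent.N592.TC
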